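import Pool.Agent.Work.MP_80ff4e_al_91.Final3

/-!
# MP_80ff4e_al: which post-critically finite polynomials have a branch iterated monodromy group

`IMG f t` is a branch group if and only if `f` is not affinely conjugate to a Chebyshev polynomial
`T_d` or `-T_d` and `f ∘ f ∘ f` is not of the form `a ∘ h ^ k` with `k ≥ 2` such that `h` has a
zero that is periodic under `f`.
-/

namespace Pool.Agent.Results.MP_80ff4e_al.BranchCriterion

open Polynomial PCF

theorem result (f : ℂ[X]) (t : ℂ) (hd : 2 ≤ f.natDegree) (hP : (postCrit f).Finite)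
    (ht : t ∉ postCrit f) :
    IsBranch (IMG f t) ↔
      (¬ ∃ α β ε : ℂ, α ≠ 0 ∧ (ε = 1 ∨ ε = -1) ∧
        f.comp (C α * X + C β) =
          (C α * X + C β).comp (C ε * Polynomial.Chebyshev.T ℂ f.natDegree)) ∧
      ¬ ∃ (k : ℕ) (a h : ℂ[X]) (y : ℂ), 2 ≤ k ∧ f.comp (f.comp f) = a.comp (h ^ k) ∧
        h.eval y = 0 ∧ ∃ p, 1 ≤ p ∧ it f p y = y := by
  rw [H91.main3 f t hd hP ht]
  refine and_congr Iff.rfl (not_congr ?_)
  have h3 : ∀ z, it f 3 z = (f.comp (f.comp f)).eval z := by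
    intro z
    rw [eval_comp, eval_comp]
    rfl
  constructor
  · rintro ⟨k, a, h, y, hk, hah, hy, hper⟩
    refine ⟨k, a, h, y, hk, Polynomial.funext fun z => ?_, hy, hper⟩
    rw [← h3, hah, eval_comp, eval_pow]
  · rintro ⟨k, a, h, y, hk, hah, hy, hper⟩
    refine ⟨k, a, h, y, hk, fun z => ?_, hy, hper⟩
    rw [h3, hah, eval_comp, eval_pow]

end Pool.Agent.Results.MP_80ff4e_al.BranchCriterion
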